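import Pool.Agent.W442.SN.Base

/-!
# SN-DIV: division by `F0 - X s * X t * X u` after a substitution
-/

namespace Pool.Agent.W417.SN.Div

open MvPolynomial Pool.Agent.W442.SN

section

variable {σ : Type} [Fintype σ] [DecidableEq σ]

/-- The weight recording the exponents of three variables. -/
def wt (s t u : σ) (j : σ) : ℕ × ℕ × ℕ :=
  (if j = s then 1 else 0, if j = t then 1 else 0, if j = u then 1 else 0)

theorem weight_wt (s t u : σ) (m : σ →₀ ℕ) :
    Finsupp.weight (wt s t u) m = (m s, m t, m u) := by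
  rw [Finsupp.weight_apply, Finsupp.sum_fintype _ _ (by simp)]
  ext <;> simp [wt, Prod.fst_sum, Prod.snd_sum]

/-- Polynomials without monomials divisible by `X s * X t * X u`. -/
def W (s t u : σ) : Submodule ℂ (MvPolynomial σ ℂ) where
  carrier := {f | ∀ m : σ →₀ ℕ, m s ≠ 0 → m t ≠ 0 → m u ≠ 0 → coeff m f = 0}
  add_mem' := by
    intro a b ha hb m h1 h2 h3
    rw [coeff_add, ha m h1 h2 h3, hb m h1 h2 h3, add_zero]
  zero_mem' := by
    intro m _ _ _
    exact coeff_zero m
  smul_mem' := by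
    intro c x hx m h1 h2 h3
    rw [coeff_smul, hx m h1 h2 h3, smul_zero]

theorem mem_W {s t u : σ} {f : MvPolynomial σ ℂ} :
    f ∈ W s t u ↔ ∀ m : σ →₀ ℕ, m s ≠ 0 → m t ≠ 0 → m u ≠ 0 → coeff m f = 0 := Iff.rfl

theorem homog_mem_W {s t u : σ} {f : MvPolynomial σ ℂ} {n : σ →₀ ℕ}
    (hf : IsWeightedHomogeneous (wt s t u) f (Finsupp.weight (wt s t u) n))
    (hn : n s = 0 ∨ n t = 0 ∨ n u = 0) : f ∈ W s t u := by
  intro m h1 h2 h3
  by_contra hc
  have h := hf hc
  rw [weight_wt, weight_wt, Prod.mk.injEq, Prod.mk.injEq] at h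
  obtain ⟨e1, e2, e3⟩ := h
  rcases hn with h | h | h
  · exact h1 (e1.trans h)
  · exact h2 (e2.trans h)
  · exact h3 (e3.trans h)

theorem monomial_mem_W {s t u : σ} {n : σ →₀ ℕ} (a : ℂ)
    (hn : n s = 0 ∨ n t = 0 ∨ n u = 0) : monomial n a ∈ W s t u :=
  homog_mem_W (isWeightedHomogeneous_monomial _ n a rfl) hn

variable {s t u : σ} {Φ : MvPolynomial σ ℂ →ₐ[ℂ] MvPolynomial σ ℂ}

theorem phi_X (hs : Φ (X s) = X s) (ht : Φ (X t) = X t) (hu : Φ (X u) = X u)
    (hΦ : ∀ j, j ≠ s → j ≠ t → j ≠ u → ∀ m : σ →₀ ℕ, coeff m (Φ (X j)) ≠ 0 →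
      m s = 0 ∧ m t = 0 ∧ m u = 0) (j : σ) :
    IsWeightedHomogeneous (wt s t u) (Φ (X j)) (wt s t u j) := by
  by_cases h1 : j = s
  · subst h1; rw [hs]; exact isWeightedHomogeneous_X _ _ _
  by_cases h2 : j = t
  · subst h2; rw [ht]; exact isWeightedHomogeneous_X _ _ _
  by_cases h3 : j = u
  · subst h3; rw [hu]; exact isWeightedHomogeneous_X _ _ _
  intro m hm
  obtain ⟨e1, e2, e3⟩ := hΦ j h1 h2 h3 m hm
  rw [weight_wt, e1, e2, e3]
  simp [wt, h1, h2, h3]

theorem phi_monomial (h : ∀ j, IsWeightedHomogeneous (wt s t u) (Φ (X j)) (wt s t u j))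
    (m : σ →₀ ℕ) (a : ℂ) :
    IsWeightedHomogeneous (wt s t u) (Φ (monomial m a)) (Finsupp.weight (wt s t u) m) := by
  rw [monomial_eq, Finsupp.prod_fintype _ _ (by simp), map_mul, map_prod, ← algebraMap_eq,
    AlgHom.commutes, algebraMap_eq]
  apply IsWeightedHomogeneous.C_mul
  rw [Finsupp.weight_apply, Finsupp.sum_fintype _ _ (by simp)]
  apply IsWeightedHomogeneous.prod
  intro j _
  rw [map_pow]
  exact (h j).pow (m j)

theorem phi_W (h : ∀ j, IsWeightedHomogeneous (wt s t u) (Φ (X j)) (wt s t u j))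
    {f : MvPolynomial σ ℂ} (hf : f ∈ W s t u) : Φ f ∈ W s t u := by
  rw [as_sum f, map_sum]
  refine Submodule.sum_mem _ fun m hm => ?_
  refine homog_mem_W (phi_monomial h m _) ?_
  by_contra hc
  push Not at hc
  exact (mem_support_iff.1 hm) (hf m hc.1 hc.2.1 hc.2.2)

theorem phi_zero (h : ∀ j, IsWeightedHomogeneous (wt s t u) (Φ (X j)) (wt s t u j))
    {f : MvPolynomial σ ℂ} (hf : ∀ m : σ →₀ ℕ, coeff m f ≠ 0 → m s = 0 ∧ m t = 0 ∧ m u = 0) :
    ∀ m : σ →₀ ℕ, coeff m (Φ f) ≠ 0 → m s = 0 ∧ m t = 0 ∧ m u = 0 := by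
  have h1 : IsWeightedHomogeneous (wt s t u) (Φ f) 0 := by
    rw [as_sum f, map_sum]
    apply IsWeightedHomogeneous.sum
    intro m hm
    obtain ⟨e1, e2, e3⟩ := hf m (mem_support_iff.1 hm)
    have := phi_monomial h m (coeff m f)
    rw [weight_wt, e1, e2, e3] at this
    exact this
  intro m hm
  have h2 := h1 hm
  rw [weight_wt] at h2
  simpa using h2

/-- Reduction modulo `F0 - X s * X t * X u`. -/
theorem reduce (F0 : MvPolynomial σ ℂ)
    (hF0 : ∀ m : σ →₀ ℕ, coeff m F0 ≠ 0 → m s = 0 ∧ m t = 0 ∧ m u = 0)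
    (hst : s ≠ t) (hsu : s ≠ u) (htu : t ≠ u) (f : MvPolynomial σ ℂ) :
    ∃ q : MvPolynomial σ ℂ, f - (F0 - X s * X t * X u) * q ∈ W s t u := by
  let V : Submodule ℂ (MvPolynomial σ ℂ) :=
    W s t u ⊔ LinearMap.range (LinearMap.mulLeft ℂ (F0 - X s * X t * X u))
  have claim : ∀ d : ℕ, ∀ f : MvPolynomial σ ℂ, (∀ m : σ →₀ ℕ, coeff m f ≠ 0 → m s ≤ d) →
      f ∈ V := by
    intro d
    induction d with
    | zero =>
      intro f hf
      refine Submodule.mem_sup_left ?_
      intro m h1 _ _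
      by_contra hc
      exact h1 (Nat.le_zero.1 (hf m hc))
    | succ d ih =>
      intro f hf
      rw [as_sum f]
      refine Submodule.sum_mem _ fun m hm => ?_
      have hms := hf m (mem_support_iff.1 hm)
      by_cases hc : m s = 0 ∨ m t = 0 ∨ m u = 0
      · exact Submodule.mem_sup_left (monomial_mem_W _ hc)
      push Not at hc
      obtain ⟨c1, c2, c3⟩ := hc
      let e : σ →₀ ℕ := Finsupp.single s 1 + Finsupp.single t 1 + Finsupp.single u 1
      have hem : e ≤ m := by
        intro j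
        simp only [e, Finsupp.add_apply, Finsupp.single_apply]
        by_cases j1 : s = j
        · subst j1; simp [hst.symm, hsu.symm]; omega
        by_cases j2 : t = j
        · subst j2; simp [hst, htu.symm]; omega
        by_cases j3 : u = j
        · subst j3; simp [hsu, htu]; omega
        simp [j1, j2, j3]
      obtain ⟨m', rfl⟩ : ∃ m', m = m' + e := ⟨m - e, (tsub_add_cancel_of_le hem).symm⟩
      set a := coeff (m' + e) f
      have he : (monomial (m' + e) a : MvPolynomial σ ℂ) = X s * X t * X u * monomial m' a := by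
        simp only [X, monomial_mul, e, one_mul]
        rw [add_comm]
      have hes : e s = 1 := by
        simp [e, hst.symm, hsu.symm]
      have hd : m' s ≤ d := by
        rw [Finsupp.add_apply, hes] at hms
        omega
      have h1 : (monomial (m' + e) a : MvPolynomial σ ℂ) =
          F0 * monomial m' a - (F0 - X s * X t * X u) * monomial m' a := by
        rw [he]; ring
      rw [h1]
      refine Submodule.sub_mem _ (ih _ ?_) (Submodule.mem_sup_right ⟨monomial m' a, rfl⟩)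
      intro n hn
      rw [coeff_mul_monomial'] at hn
      by_cases hle : m' ≤ n
      · rw [if_pos hle] at hn
        have h2 := (hF0 (n - m') (left_ne_zero_of_mul hn)).1
        rw [Finsupp.tsub_apply] at h2
        omega
      · rw [if_neg hle] at hn
        exact absurd rfl hn
  have hf : f ∈ V := claim (f.degreeOf s) f (fun m hm => monomial_le_degreeOf s
    (mem_support_iff.2 hm))
  obtain ⟨w, hw, z, ⟨q, rfl⟩, hz⟩ := Submodule.mem_sup.1 hf
  refine ⟨q, ?_⟩
  rw [← hz, LinearMap.mulLeft_apply, add_sub_cancel_right]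
  exact hw

theorem not_dvd {K : MvPolynomial σ ℂ} (hK0 : K ≠ 0) {i : σ}
    (hK : ∀ m : σ →₀ ℕ, coeff m K ≠ 0 → m i = 0) : ¬ (X i ∣ K) := by
  rintro ⟨q, rfl⟩
  obtain ⟨m, hm⟩ := ne_zero_iff.1 hK0
  have h1 := hK m hm
  rw [coeff_X_mul'] at hm
  simp [h1] at hm

theorem irred {K : MvPolynomial σ ℂ} (hK0 : K ≠ 0)
    (hK : ∀ m : σ →₀ ℕ, coeff m K ≠ 0 → m s = 0 ∧ m t = 0 ∧ m u = 0)
    (hst : s ≠ t) (hsu : s ≠ u) :
    Irreducible (K - X s * X t * X u) := by
  have h1 : K - X s * X t * X u = (-(X t * X u)) * X s + K := by ring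
  rw [h1]
  apply irreducible_mul_X_add
  · rw [neg_ne_zero]
    exact mul_ne_zero (X_ne_zero t) (X_ne_zero u)
  · rw [vars_neg]
    intro hc
    have h2 := vars_mul _ _ hc
    rw [vars_X, vars_X] at h2
    simp [hst, hsu] at h2
  · rw [mem_vars_iff_mem_support]
    rintro ⟨d, hd, hds⟩
    have := (hK d (mem_support_iff.1 hd)).1
    simp [this] at hds
  · rw [IsRelPrime.neg_left_iff]
    apply IsRelPrime.mul_left
    · exact (Irreducible.isRelPrime_iff_not_dvd (X_prime (i := t)).irreducible).2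
        (not_dvd hK0 fun m hm => (hK m hm).2.1)
    · exact (Irreducible.isRelPrime_iff_not_dvd (X_prime (i := u)).irreducible).2
        (not_dvd hK0 fun m hm => (hK m hm).2.2)

theorem zero_of_vanish {K : MvPolynomial σ ℂ} (hK0 : K ≠ 0)
    (hK : ∀ m : σ →₀ ℕ, coeff m K ≠ 0 → m s = 0 ∧ m t = 0 ∧ m u = 0)
    (hst : s ≠ t) (hsu : s ≠ u) (htu : t ≠ u) {h : MvPolynomial σ ℂ} (hW : h ∈ W s t u)
    (hv : ∀ y : σ → ℂ, y s * y t * y u = eval y K → eval y h = 0) : h = 0 := by
  have hp : Prime (K - X s * X t * X u) := (irred hK0 hK hst hsu).prime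
  have : (Ideal.span {K - X s * X t * X u}).IsPrime :=
    (Ideal.span_singleton_prime hp.ne_zero).2 hp
  have hmem : h ∈ Ideal.span {K - X s * X t * X u} := by
    rw [← IsPrime.vanishingIdeal_zeroLocus (K := ℂ) (Ideal.span {K - X s * X t * X u})]
    intro y hy
    have h1 := hy (K - X s * X t * X u) (Ideal.mem_span_singleton_self _)
    rw [aeval_eq_eval] at h1 ⊢
    refine hv y ?_
    simp only [map_sub, map_mul, eval_X] at h1
    exact (sub_eq_zero.1 h1).symm
  obtain ⟨g, rfl⟩ := Ideal.mem_span_singleton.1 hmem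
  by_cases hg : g = 0
  · rw [hg, mul_zero]
  exfalso
  obtain ⟨m0, hm0, hmax⟩ := Finset.exists_max_image g.support (fun m => m s)
    (support_nonempty.2 hg)
  let e : σ →₀ ℕ := Finsupp.single s 1 + Finsupp.single t 1 + Finsupp.single u 1
  have hes : e s = 1 := by
    simp [e, hst.symm, hsu.symm]
  have het : e t = 1 := by
    simp [e, hst, htu.symm]
  have heu : e u = 1 := by
    simp [e, hsu, htu]
  have h0 : coeff (m0 + e) ((K - X s * X t * X u) * g) = 0 := by
    apply hW
    · rw [Finsupp.add_apply, hes]; omega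
    · rw [Finsupp.add_apply, het]; omega
    · rw [Finsupp.add_apply, heu]; omega
  have h1 : coeff (m0 + e) (K * g) = 0 := by
    rw [coeff_mul]
    refine Finset.sum_eq_zero fun ab hab => ?_
    rw [Finset.HasAntidiagonal.mem_antidiagonal] at hab
    by_contra hc
    have ha := (hK ab.1 (left_ne_zero_of_mul hc)).1
    have hb := hmax ab.2 (mem_support_iff.2 (right_ne_zero_of_mul hc))
    have h2 := DFunLike.congr_fun hab s
    rw [Finsupp.add_apply, Finsupp.add_apply, hes, ha] at h2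
    omega
  have h2 : coeff (m0 + e) (X s * X t * X u * g) = coeff m0 g := by
    have : (X s * X t * X u : MvPolynomial σ ℂ) = monomial e 1 := by
      simp only [X, monomial_mul, e, one_mul]
    rw [this, add_comm, coeff_monomial_mul, one_mul]
  rw [sub_mul, coeff_sub, h1, h2, zero_sub, neg_eq_zero] at h0
  exact (mem_support_iff.1 hm0) h0

end

theorem main : S_div := by
  intro σ _ _ s t u hst hsu htu Φ hs ht hu hΦ F0 hF0 hK0 f hf
  have hX := phi_X hs ht hu hΦ
  obtain ⟨q, hq⟩ := reduce F0 hF0 hst hsu htu f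
  refine ⟨q, ?_⟩
  refine zero_of_vanish hK0 (phi_zero hX hF0) hst hsu htu (phi_W hX hq) ?_
  intro y hy
  have h1 : eval y (Φ (F0 - X s * X t * X u)) = 0 := by
    rw [map_sub, map_mul, map_mul, hs, ht, hu, map_sub, map_mul, map_mul, eval_X, eval_X,
      eval_X, hy, sub_self]
  rw [map_sub, map_mul, map_sub, map_mul, hf y hy, h1, zero_mul, sub_zero]

end Pool.Agent.W417.SN.Div
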