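import Pool.Agent.W442.SN.Base

/-!
# SN-DEPTH: the length of a regular sequence is at most the dimension modulo an annihilator
-/

namespace Pool.Agent.W417.SN.Depth

open RingTheory.Sequence IsLocalRing Pool.Agent.W442.SN

theorem key {R : Type} [CommRing R] [IsLocalRing R] [IsNoetherianRing R] (rs : List R) :
    ∀ (M : Type) [AddCommGroup M] [Module R M] [Module.Finite R M]
      (_ : IsWeaklyRegular M rs) (_ : ∀ r ∈ rs, r ∈ maximalIdeal R)
      (z : M) (_ : z ≠ 0) (J : Ideal R) (_ : ∀ a ∈ J, a • z = 0),
      (rs.length : WithBot ℕ∞) ≤ ringKrullDim (R ⧸ J) := by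
  induction rs with
  | nil =>
    intro M _ _ _ _ _ z hz J hJ
    have hJt : J ≠ ⊤ := by
      intro h
      apply hz
      have := hJ 1 (h ▸ Submodule.mem_top)
      simpa using this
    haveI : Nontrivial (R ⧸ J) := Ideal.Quotient.nontrivial_iff.2 hJt
    simpa using ringKrullDim_nonneg_of_nontrivial
  | cons y rs' ih =>
    intro M _ _ _ hreg hm z hz J hJ
    rw [isWeaklyRegular_cons_iff] at hreg
    obtain ⟨hy, hreg'⟩ := hreg
    obtain ⟨P, hP, hzP⟩ := exists_le_isAssociatedPrime_of_isNoetherianRing R z hz
    rw [isAssociatedPrime_iff] at hP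
    obtain ⟨hPp, w, hw⟩ := hP
    have hJP : J ≤ P := by
      intro a ha
      apply hzP
      rw [Submodule.mem_colon_singleton]
      simpa using hJ a ha
    have hPw : ∀ a, a ∈ P ↔ a • w = 0 := by
      intro a
      rw [hw, Submodule.mem_colon_singleton]
      simp
    have hw0 : w ≠ 0 := by
      intro h
      apply hPp.ne_top
      rw [Ideal.eq_top_iff_one, hPw, h, smul_zero]
    have hyP : y ∉ P := by
      intro h
      apply hw0
      have := (hPw y).1 h
      apply hy
      simpa using this
    have hym : y ∈ maximalIdeal R := hm y (by simp)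
    -- the submodule killed by `P`
    let N : Submodule R M :=
      { carrier := {m | ∀ a ∈ P, a • m = 0}
        add_mem' := by
          intro a b ha hb c hc
          rw [smul_add, ha c hc, hb c hc, add_zero]
        zero_mem' := by
          intro c _
          exact smul_zero c
        smul_mem' := by
          intro c x hx a ha
          rw [smul_comm, hx a ha, smul_zero] }
    have hwN : w ∈ N := fun a ha => (hPw a).1 ha
    obtain ⟨n, hnN, hny⟩ : ∃ n ∈ N, ∀ m : M, n ≠ y • m := by
      by_contra hcon
      push Not at hcon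
      have hle : N ≤ maximalIdeal R • N := by
        intro n hn
        obtain ⟨m, hm'⟩ := hcon n hn
        have hmN : m ∈ N := by
          intro a ha
          apply hy
          show y • (a • m) = y • 0
          rw [smul_comm, ← hm', hn a ha, smul_zero]
        rw [hm']
        exact Submodule.smul_mem_smul hym hmN
      have hN : N = ⊥ := Submodule.eq_bot_of_le_smul_of_le_jacobson_bot _ N
        (IsNoetherian.noetherian N) hle (IsLocalRing.maximalIdeal_le_jacobson _)
      rw [hN] at hwN
      exact hw0 ((Submodule.mem_bot R).1 hwN)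
    -- the class in the quotient
    have hz' : (Submodule.Quotient.mk n : QuotSMulTop y M) ≠ 0 := by
      intro h
      rw [Submodule.Quotient.mk_eq_zero] at h
      obtain ⟨m, -, hm'⟩ := (Submodule.mem_smul_pointwise_iff_exists _ _ _).1 h
      exact hny m hm'.symm
    have h1 := ih (QuotSMulTop y M) hreg' (fun r hr => hm r (List.mem_cons_of_mem _ hr))
      (Submodule.Quotient.mk n) hz' (P ⊔ Ideal.span {y}) (by
        intro a ha
        obtain ⟨p, hp, q, hq, rfl⟩ := Submodule.mem_sup.1 ha
        obtain ⟨c, rfl⟩ := Ideal.mem_span_singleton'.1 hq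
        rw [← Submodule.Quotient.mk_smul, Submodule.Quotient.mk_eq_zero, add_smul, hnN p hp,
          zero_add, mul_comm, mul_smul]
        exact Submodule.smul_mem_pointwise_smul _ _ _ Submodule.mem_top)
    have h2 : ringKrullDim (R ⧸ P ⊔ Ideal.span {y}) + 1 ≤ ringKrullDim (R ⧸ P) := by
      refine ringKrullDim_succ_le_of_surjective
        (Ideal.Quotient.factor (le_sup_left : P ≤ P ⊔ Ideal.span {y}))
        (Ideal.Quotient.factor_surjective _) (r := Ideal.Quotient.mk P y) ?_ ?_
      · rw [mem_nonZeroDivisors_iff_ne_zero]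
        rw [Ne, Ideal.Quotient.eq_zero_iff_mem]
        exact hyP
      · rw [Ideal.Quotient.factor_mk, Ideal.Quotient.eq_zero_iff_mem]
        exact Ideal.mem_sup_right (Ideal.mem_span_singleton_self y)
    have h3 : ringKrullDim (R ⧸ P) ≤ ringKrullDim (R ⧸ J) :=
      ringKrullDim_le_of_surjective (Ideal.Quotient.factor hJP)
        (Ideal.Quotient.factor_surjective _)
    calc ((y :: rs').length : WithBot ℕ∞) = (rs'.length : WithBot ℕ∞) + 1 := by simp
      _ ≤ ringKrullDim (R ⧸ P ⊔ Ideal.span {y}) + 1 := by gcongr
      _ ≤ _ := h2.trans h3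

theorem main : S_depth := by
  intro R _ _ _ rs hrs hreg x hx J hJ
  exact key rs R hreg.toIsWeaklyRegular hrs x hx J hJ

end Pool.Agent.W417.SN.Depth
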