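import Pool.Agent.W442.SN.Base
import Pool.Agent.W417.SN.Depth

/-!
# SN-NOTCM: a criterion for a quotient by a homogeneous ideal not to be Cohen-Macaulay
-/

namespace Pool.Agent.W417.SN.NotCM

open MvPolynomial Pool.Agent.W442.SN Pool.Agent.W442.SV

/-- translations -/
noncomputable def tr {ι : Type} (x : ι → ℂ) : MvPolynomial ι ℂ ≃ₐ[ℂ] MvPolynomial ι ℂ :=
  AlgEquiv.ofAlgHom (aeval fun j => X j + C (x j)) (aeval fun j => X j - C (x j))
    (by ext j; simp [algHom_C]) (by ext j; simp [algHom_C])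

theorem eval_tr {ι : Type} (x : ι → ℂ) (f : MvPolynomial ι ℂ) :
    eval 0 (tr x f) = eval x f := by
  have h : ((aeval (0 : ι → ℂ)).comp (tr x).toAlgHom : MvPolynomial ι ℂ →ₐ[ℂ] ℂ) = aeval x := by
    ext j
    simp [tr]
  have h1 := DFunLike.congr_fun h f
  simpa [aeval_eq_eval] using h1

theorem height_origin (ι : Type) [Fintype ι] :
    ((Nat.card ι : ℕ) : WithBot ℕ∞) ≤ ((originIdeal ι).height : WithBot ℕ∞) := by
  have h0 : ringKrullDim (MvPolynomial ι ℂ) = ((Nat.card ι : ℕ) : WithBot ℕ∞) := by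
    rw [MvPolynomial.ringKrullDim_of_isNoetherianRing, ringKrullDim_eq_zero_of_field, zero_add]
  rw [← h0]
  rw [ringKrullDim_le_iff_isMaximal_height_le]
  intro m hm
  obtain ⟨x, rfl⟩ := isMaximal_iff_eq_vanishingIdeal_singleton.1 hm
  have h1 : vanishingIdeal ℂ {x} = (originIdeal ι).comap (tr x).toRingEquiv := by
    ext f
    rw [Ideal.mem_comap, mem_vanishingIdeal_singleton_iff]
    show _ ↔ tr x f ∈ originIdeal ι
    rw [originIdeal, RingHom.mem_ker, eval_tr, aeval_eq_eval]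
  rw [h1, RingEquiv.height_comap]

/-- Setting the variables of `A` to zero. -/
noncomputable def kill {σ : Type} [DecidableEq σ] (A : Finset σ) :
    MvPolynomial σ ℂ →ₐ[ℂ] MvPolynomial {j // j ∉ A} ℂ :=
  aeval fun j => if h : j ∉ A then X ⟨j, h⟩ else 0

theorem kill_rename {σ : Type} [DecidableEq σ] (A : Finset σ)
    (f : MvPolynomial {j // j ∉ A} ℂ) : kill A (rename Subtype.val f) = f := by
  have h : (kill A).comp (rename Subtype.val) = AlgHom.id ℂ (MvPolynomial {j // j ∉ A} ℂ) := by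
    ext j : 1
    simp [kill, j.2]
  exact DFunLike.congr_fun h f

theorem eval_kill {σ : Type} [DecidableEq σ] (A : Finset σ)
    (f : MvPolynomial σ ℂ) : eval 0 (kill A f) = constantCoeff f := by
  have h : (aeval (0 : {j // j ∉ A} → ℂ)).comp (kill A) = (aeval (0 : σ → ℂ)) := by
    ext j : 1
    by_cases hj : j ∈ A <;> simp [kill, hj]
  have h1 := DFunLike.congr_fun h f
  simp only [AlgHom.comp_apply, aeval_eq_eval] at h1
  rw [h1, ← eval_zero]

theorem comp_mul {σ : Type} [DecidableEq σ] {s ξ : MvPolynomial σ ℂ} {i : ℕ}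
    (hξ : ξ.IsHomogeneous i) :
    homogeneousComponent i (s * ξ) = C (constantCoeff s) * ξ := by
  ext d
  rw [coeff_homogeneousComponent, coeff_C_mul]
  by_cases hd : d.degree = i
  · rw [if_pos hd, coeff_mul, Finset.sum_eq_single (0, d)]
    · rfl
    · rintro ⟨a, b⟩ hab hne
      rw [Finset.HasAntidiagonal.mem_antidiagonal] at hab
      simp only at hab
      by_cases hb : b.degree = i
      · have h1 : (a + b).degree = d.degree := by rw [hab]
        rw [map_add, hb, hd] at h1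
        have h2 : a = 0 := (Finsupp.degree_eq_zero_iff a).1 (by omega)
        subst h2
        rw [zero_add] at hab
        exact absurd (by rw [hab]) hne
      · simp only
        rw [hξ.coeff_eq_zero hb, mul_zero]
    · intro h
      exact absurd (by simp) h
  · rw [if_neg hd, hξ.coeff_eq_zero hd, mul_zero]

theorem step {σ : Type} [Fintype σ] [DecidableEq σ] {J : Ideal (MvPolynomial σ ℂ)}
    (hJ : ∀ f ∈ J, ∀ i, homogeneousComponent i f ∈ J) {A : Finset σ}
    {ξ : MvPolynomial σ ℂ} {i : ℕ} (hξ : ξ.IsHomogeneous i) (hξJ : ξ ∉ J)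
    (hA : ∀ j ∈ A, X j * ξ ∈ J)
    (p : Ideal (MvPolynomial σ ℂ ⧸ J)) [p.IsPrime]
    (hp : ∀ f : MvPolynomial σ ℂ, Ideal.Quotient.mk J f ∈ p.primeCompl ↔ constantCoeff f ≠ 0)
    (R : Type) [CommRing R] [IsLocalRing R] [IsNoetherianRing R]
    [Algebra (MvPolynomial σ ℂ ⧸ J) R] [IsLocalization p.primeCompl R]
    (rs : List R) (hrs : ∀ r ∈ rs, r ∈ IsLocalRing.maximalIdeal R)
    (hreg : RingTheory.Sequence.IsRegular R rs) :
    (rs.length : WithBot ℕ∞) ≤ ((Nat.card {j // j ∉ A} : ℕ) : WithBot ℕ∞) := by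
  let ψ : MvPolynomial σ ℂ →+* R := (algebraMap (MvPolynomial σ ℂ ⧸ J) R).comp
    (Ideal.Quotient.mk J)
  have hψ : ∀ f, ψ f = algebraMap (MvPolynomial σ ℂ ⧸ J) R (Ideal.Quotient.mk J f) :=
    fun f => rfl
  have hx : ψ ξ ≠ 0 := by
    intro h
    rw [hψ, IsLocalization.map_eq_zero_iff p.primeCompl] at h
    obtain ⟨⟨c, hc⟩, hc2⟩ := h
    obtain ⟨s, rfl⟩ := Ideal.Quotient.mk_surjective c
    rw [hp] at hc
    simp only at hc2
    rw [← map_mul, Ideal.Quotient.eq_zero_iff_mem] at hc2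
    have h1 := hJ _ hc2 i
    rw [comp_mul hξ] at h1
    apply hξJ
    have h2 := J.mul_mem_left (C (constantCoeff s)⁻¹) h1
    rw [← mul_assoc, ← C_mul, inv_mul_cancel₀ hc, C_1, one_mul] at h2
    exact h2
  -- the ideal
  let J' : Ideal R := Ideal.span ((fun j => ψ (X j)) '' (A : Set σ))
  have hJ' : ∀ a ∈ J', a * ψ ξ = 0 := by
    have h1 : J' ≤ LinearMap.ker (LinearMap.toSpanSingleton R R (ψ ξ)) := by
      rw [Ideal.span_le]
      rintro _ ⟨j, hj, rfl⟩
      rw [SetLike.mem_coe, LinearMap.mem_ker, LinearMap.toSpanSingleton_apply, smul_eq_mul,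
        ← map_mul, hψ, Ideal.Quotient.eq_zero_iff_mem.2 (hA j hj), map_zero]
    intro a ha
    exact h1 ha
  have hup : (rs.length : WithBot ℕ∞) ≤ ringKrullDim (R ⧸ J') :=
    Depth.main R rs hrs hreg (ψ ξ) hx J' hJ'
  -- upper bound
  let φ : MvPolynomial {j // j ∉ A} ℂ →+* R ⧸ J' :=
    (Ideal.Quotient.mk J').comp (ψ.comp
      ((rename Subtype.val : MvPolynomial {j // j ∉ A} ℂ →ₐ[ℂ] MvPolynomial σ ℂ) :
        MvPolynomial {j // j ∉ A} ℂ →+* MvPolynomial σ ℂ))
  have hφ : ∀ f : MvPolynomial σ ℂ, Ideal.Quotient.mk J' (ψ f) = φ (kill A f) := by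
    intro f
    have h1 : (Ideal.Quotient.mk J').comp ψ = φ.comp (kill A : MvPolynomial σ ℂ →+* _) := by
      apply MvPolynomial.ringHom_ext
      · intro r
        simp [φ, kill, algHom_C]
      · intro j
        by_cases hj : j ∈ A
        · have h2 : ψ (X j) ∈ J' := Ideal.subset_span ⟨j, hj, rfl⟩
          have h3 : Ideal.Quotient.mk J' (ψ (X j)) = 0 := Ideal.Quotient.eq_zero_iff_mem.2 h2
          simp [h3, kill, hj]
        · simp [φ, kill, hj]
    exact DFunLike.congr_fun h1 f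
  have hsurj : ∀ z : R ⧸ J', ∃ a b, IsUnit (φ b) ∧ z * φ b = φ a := by
    intro z
    obtain ⟨r, rfl⟩ := Ideal.Quotient.mk_surjective z
    obtain ⟨⟨a, c⟩, hac⟩ := IsLocalization.surj p.primeCompl r
    obtain ⟨f, rfl⟩ := Ideal.Quotient.mk_surjective a
    obtain ⟨g, hg⟩ := Ideal.Quotient.mk_surjective c.1
    refine ⟨kill A f, kill A g, ?_, ?_⟩
    · rw [← hφ, hψ, hg]
      exact (IsLocalization.map_units R c).map _
    · rw [← hφ, ← hφ, ← map_mul, hψ, hψ, hg]
      exact congrArg _ hac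
  have hdim : ringKrullDim (R ⧸ J') ≤ ringKrullDim (MvPolynomial {j // j ∉ A} ℂ) := by
    refine Order.krullDim_le_of_strictMono (PrimeSpectrum.comap φ) ?_
    intro P Q hPQ
    refine lt_of_le_of_ne (Ideal.comap_mono hPQ.le) ?_
    intro heq
    apply hPQ.not_ge
    intro z hz
    obtain ⟨a, b, hb, hab⟩ := hsurj z
    have h1 : φ a ∈ Q.asIdeal := by
      rw [← hab]
      exact Q.asIdeal.mul_mem_right _ hz
    have h2 : a ∈ (PrimeSpectrum.comap φ Q).asIdeal := h1
    rw [← heq] at h2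
    have h3 : φ a ∈ P.asIdeal := h2
    rw [← hab] at h3
    exact (Ideal.mul_unit_mem_iff_mem _ hb).1 h3
  rw [MvPolynomial.ringKrullDim_of_isNoetherianRing, ringKrullDim_eq_zero_of_field,
    zero_add] at hdim
  exact hup.trans hdim

theorem main : S_notcm := by
  intro σ _ _ J hJ A B hAB ξ i hξ hξJ hA hB hCM
  classical
  -- the map setting the variables of `B` to zero
  have hJk : ∀ f ∈ J, kill B f = 0 := by
    intro f hf
    have h1 : Ideal.span ((fun j => (X j : MvPolynomial σ ℂ)) '' (B : Set σ)) ≤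
        RingHom.ker (kill B) := by
      rw [Ideal.span_le]
      rintro _ ⟨j, hj, rfl⟩
      have hj' : j ∈ B := hj
      simp [kill, hj']
    exact h1 (hB hf)
  let π : MvPolynomial σ ℂ ⧸ J →+* MvPolynomial {j // j ∉ B} ℂ :=
    Ideal.Quotient.lift J (kill B : MvPolynomial σ ℂ →+* _) hJk
  have hπ : Function.Surjective π := by
    intro f
    refine ⟨Ideal.Quotient.mk J (rename Subtype.val f), ?_⟩
    exact kill_rename B f
  let O : Ideal (MvPolynomial {j // j ∉ B} ℂ) := originIdeal _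
  obtain ⟨rs, hrs, hreg, hlen⟩ := hCM (O.comap π)
  -- lower bound
  have hlow : ((Nat.card {j // j ∉ B} : ℕ) : WithBot ℕ∞) ≤
      ringKrullDim (Localization.AtPrime (O.comap π)) := by
    refine (height_origin {j // j ∉ B}).trans ?_
    rw [← IsLocalization.AtPrime.ringKrullDim_eq_height O (Localization.AtPrime O)]
    exact ringKrullDim_le_of_surjective _
      (RingHom.surjective_localRingHom_of_surjective π hπ O)
  -- the element
  have hmemO : ∀ f : MvPolynomial σ ℂ, Ideal.Quotient.mk J f ∈ (O.comap π).primeCompl ↔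
      constantCoeff f ≠ 0 := by
    intro f
    rw [Ideal.primeCompl, ← eval_kill B f]
    rfl
  have hup := step hJ hξ hξJ hA (O.comap π) hmemO (Localization.AtPrime (O.comap π)) rs hrs hreg
  rw [← hlen] at hlow
  have h1 := hlow.trans hup
  have h2 : Nat.card {j // j ∉ B} ≤ Nat.card {j // j ∉ A} := by exact_mod_cast h1
  rw [Nat.card_eq_fintype_card, Nat.card_eq_fintype_card, Fintype.card_subtype_compl,
    Fintype.card_subtype_compl, Fintype.card_coe, Fintype.card_coe] at h2
  have h3 := Finset.card_le_univ A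
  omega

end Pool.Agent.W417.SN.NotCM
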