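import Pool.Agent.W417.SN.Apt

/-! Integral apartments generate. -/

set_option autoImplicit false

namespace Pool.Agent.W417.SN

open Pool.Agent.W31.SN Submodule

variable {R K V : Type} [CommRing R] [IsDomain R] [Field K] [Algebra R K] [IsFractionRing R K]
  [AddCommGroup V] [Module K V] [Module R V] [IsScalarTower R K V] [FiniteDimensional K V]

open Classical in
/-- the level of a head -/
noncomputable def lev (N : R → ℕ) (Λ : Submodule R V) (W : Submodule K V) (ρ : V → R)
    (L : Submodule K V) : ℕ :=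
  if h : ∃ v, Prim Λ W v ∧ L = W ⊔ span K {v} then N (ρ h.choose) else 0

omit [FiniteDimensional K V] in
theorem lev_eq {N : R → ℕ} (hN : NormOk R N) {Λ : Submodule R V} {W : Submodule K V}
    {ρ : V → R} {f : V →ₗ[K] K} (hf : ∀ x ∈ Λ, algebraMap R K (ρ x) = f x) (hW : W ≤ f.ker)
    {x : V} (hx : Prim Λ W x) : lev N Λ W ρ (W ⊔ span K {x}) = N (ρ x) := by
  have h : ∃ v, Prim Λ W v ∧ W ⊔ span K {x} = W ⊔ span K {v} := ⟨x, hx, rfl⟩
  rw [lev, dif_pos h]
  obtain ⟨h1, h2⟩ := h.choose_spec
  obtain ⟨u, hu⟩ := prim_unique h1 hx h2.symm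
  have h3 : f (x - (u : R) • h.choose) = 0 := hW hu
  rw [map_sub, ← smul_algebraMap' (K := K), map_smul, smul_eq_mul, ← hf x hx.1,
    ← hf _ h1.1, ← map_mul, ← map_sub, FaithfulSMul.algebraMap_eq_zero_iff] at h3
  rw [sub_eq_zero.1 h3, hN.unit]

omit [IsDomain R] [Algebra R K] [IsFractionRing R K] [IsScalarTower R K V]
  [FiniteDimensional K V] in
theorem lev_pos {N : R → ℕ} {Λ : Submodule R V} {W : Submodule K V}
    {ρ : V → R} {L : Submodule K V} (h : lev N Λ W ρ L ≠ 0) :
    ∃ v, Prim Λ W v ∧ L = W ⊔ span K {v} := by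
  by_contra hcon
  apply h
  rw [lev, dif_neg hcon]

/-- lifting a combination of apartments -/
theorem lift_apt (h6 : Task6) {N : R → ℕ} (hN : NormOk R N) {Λ : Submodule R V}
    (hs : span K (Λ : Set V) = ⊤) {W : Submodule K V}
    {ρ : V → R} {f : V →ₗ[K] K} (hf : ∀ x ∈ Λ, algebraMap R K (ρ x) = f x) (hW : W ≤ f.ker)
    {m : ℕ} (hm : m + 1 + Module.finrank K W = Module.finrank K V)
    {v : V} (hv : Prim Λ W v) (hv0 : N (ρ v) ≠ 0) (u : List (Submodule K V) →₀ ℤ)
    (hu : u ∈ span ℤ {y | ∃ l : List V, Frame Λ (W ⊔ span K {v}) l ∧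
      y = apt (W ⊔ span K {v}) l}) :
    ∃ y : List (Submodule K V) →₀ ℤ,
      y ∈ span ℤ {y | ∃ l : List V, Frame Λ W l ∧ y = apt W l} ∧ IsCyc W (m + 1) y ∧
      res (W ⊔ span K {v}) y = u ∧ ∀ L T, L :: T ∈ y.support →
        L = W ⊔ span K {v} ∨ lev N Λ W ρ L < N (ρ v) := by
  classical
  have hρv : ρ v ≠ 0 := fun h => hv0 ((hN.zero _).2 h)
  induction hu using Submodule.span_induction with
  | mem u hu =>
    obtain ⟨l, hl, rfl⟩ := hu
    have hc : ∀ x : V, ∃ c : R, N (ρ x - c * ρ v) < N (ρ v) := by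
      intro x
      obtain ⟨c, d, h1, _, _⟩ := hN.tri (ρ v) (ρ x) 0 hρv
      exact ⟨c, h1⟩
    choose c hc using hc
    let g : V → V := fun x => x - c x • v
    have hvL : v ∈ W ⊔ span K {v} := mem_sup_right (mem_span_singleton_self _)
    have hg : ∀ x, (W ⊔ span K {v}) ⊔ span K {g x} = (W ⊔ span K {v}) ⊔ span K {x} := by
      intro x
      have hcv : c x • v ∈ W ⊔ span K {v} := smul_mem' _ _ hvL
      apply le_antisymm
      · refine sup_le le_sup_left ((span_singleton_le_iff_mem _ _).2 ?_)
        exact sub_mem (mem_sup_right (mem_span_singleton_self _)) (mem_sup_left hcv)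
      · refine sup_le le_sup_left ((span_singleton_le_iff_mem _ _).2 ?_)
        have h1 : g x + c x • v ∈ (W ⊔ span K {v}) ⊔ span K {g x} :=
          add_mem (mem_sup_right (mem_span_singleton_self _)) (mem_sup_left hcv)
        have h2 : g x + c x • v = x := by
          change x - c x • v + c x • v = x
          rw [sub_add_cancel]
        rwa [h2] at h1
    have hfr : Frame Λ (W ⊔ span K {v}) (l.map g) := by
      obtain ⟨h1, h2, h3⟩ := hl
      refine ⟨?_, ?_, by rwa [List.length_map]⟩
      · intro x hx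
        obtain ⟨x0, hx0, rfl⟩ := List.mem_map.1 hx
        exact Λ.sub_mem (h1 x0 hx0) (Λ.smul_mem _ hv.1)
      · refine h2.trans (sup_le le_sup_left (span_le.2 ?_))
        intro x hx
        have h1 : g x + c x • v ∈ (W ⊔ span K {v}).restrictScalars R ⊔
            span R {x | x ∈ l.map g} :=
          add_mem (mem_sup_right (subset_span (List.mem_map.2 ⟨x, hx, rfl⟩)))
            (mem_sup_left (smul_mem' (W ⊔ span K {v}) (c x) hvL))
        have h2 : g x + c x • v = x := by
          change x - c x • v + c x • v = x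
          rw [sub_add_cancel]
        rwa [h2] at h1
    have hfr' : Frame Λ W (v :: l.map g) := frame_cons hv hfr
    have hlen : (v :: l.map g).length = m + 1 := by
      have := hfr'.2.2
      omega
    refine ⟨apt W (v :: l.map g), subset_span ⟨_, hfr', rfl⟩, ?_, ?_, ?_⟩
    · rw [← hlen]
      exact (h6 R K V Λ hs W).2 _ hfr'
    · rw [res_apt, apt_map g _ hg]
      intro x hx heq
      apply (frame_mem_prim hs hfr hx).2.1
      rw [← heq]
      exact mem_sup_right (mem_span_singleton_self _)
    · intro L T hLT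
      obtain ⟨x, hx, rfl⟩ := head_apt W _ L T hLT
      have hxp := frame_mem_prim hs hfr' hx
      rcases List.mem_cons.1 hx with rfl | hx
      · exact Or.inl rfl
      · right
        rw [lev_eq hN hf hW hxp]
        obtain ⟨x0, hx0, rfl⟩ := List.mem_map.1 hx
        have h7 : ρ (g x0) = ρ x0 - c x0 * ρ v := by
          apply FaithfulSMul.algebraMap_injective R K
          rw [hf _ hxp.1, map_sub (algebraMap R K), map_mul, hf _ (hl.1 x0 hx0), hf _ hv.1]
          change f (x0 - c x0 • v) = _
          rw [map_sub, ← smul_algebraMap' (K := K), map_smul, smul_eq_mul]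
        rw [h7]
        exact hc x0
  | zero =>
    refine ⟨0, zero_mem _, cyc_zero, map_zero _, ?_⟩
    intro L T h
    rw [Finsupp.support_zero] at h
    exact absurd h (Finset.notMem_empty _)
  | add x y _ _ hx hy =>
    obtain ⟨a, ha1, ha2, ha3, ha4⟩ := hx
    obtain ⟨b, hb1, hb2, hb3, hb4⟩ := hy
    refine ⟨a + b, add_mem ha1 hb1, cyc_add ha2 hb2, by rw [map_add, ha3, hb3], ?_⟩
    intro L T h
    rcases Finset.mem_union.1 (Finsupp.support_add h) with h | h
    · exact ha4 L T h
    · exact hb4 L T h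
  | smul k x _ hx =>
    obtain ⟨a, ha1, ha2, ha3, ha4⟩ := hx
    refine ⟨k • a, smul_mem _ _ ha1, cyc_smul k ha2, by rw [map_zsmul, ha3], ?_⟩
    intro L T h
    exact ha4 L T (Finsupp.support_smul h)

/-- one step of the induction on the codimension -/
theorem codim_step [IsPrincipalIdealRing R] (h6 : Task6) {N : R → ℕ} (hN : NormOk R N)
    {Λ : Submodule R V} (hfg : Λ.FG) (hs : span K (Λ : Set V) = ⊤) {m : ℕ}
    (ih : ∀ (W : Submodule K V) (z : List (Submodule K V) →₀ ℤ),
      m + Module.finrank K W = Module.finrank K V → IsCyc W m z →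
      z ∈ span ℤ {y | ∃ l : List V, Frame Λ W l ∧ y = apt W l}) (W : Submodule K V)
    (hm : m + 1 + Module.finrank K W = Module.finrank K V) {ρ : V → R} {f : V →ₗ[K] K}
    (hf : ∀ x ∈ Λ, algebraMap R K (ρ x) = f x) (hW : W ≤ f.ker) (hf0 : f ≠ 0) :
    ∀ (k : ℕ) (S : Finset (Submodule K V)), (∀ L ∈ S, lev N Λ W ρ L = k) →
      ∀ z : List (Submodule K V) →₀ ℤ, IsCyc W (m + 1) z →
      (∀ L T, L :: T ∈ z.support → lev N Λ W ρ L < k ∨ L ∈ S) →
      z ∈ span ℤ {y | ∃ l : List V, Frame Λ W l ∧ y = apt W l} := by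
  classical
  have hprim : ∀ z : List (Submodule K V) →₀ ℤ, IsCyc W (m + 1) z → ∀ L T, L :: T ∈ z.support →
      ∃ v, Prim Λ W v ∧ L = W ⊔ span K {v} := by
    intro z hz L T hLT
    obtain ⟨h1, h2, h3⟩ := hz.1 _ hLT
    rw [List.length_cons] at h1
    obtain ⟨h4, h5⟩ := head_dim h2 h3 (by omega)
    exact exists_prim Λ hfg hs W L h4 h5
  intro k
  induction k with
  | zero =>
    intro S hS z hz hL
    have h0 : z = 0 := by
      refine lemZ f.ker (Module.Dual.finrank_ker_add_one_of_ne_zero hf0) m W z hm hz ?_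
      intro L T hLT
      obtain ⟨v, hv, rfl⟩ := hprim z hz L T hLT
      have h7 : lev N Λ W ρ (W ⊔ span K {v}) = 0 := by
        rcases hL _ T hLT with h | h
        · exact absurd h (Nat.not_lt_zero _)
        · exact hS _ h
      rw [lev_eq hN hf hW hv, hN.zero] at h7
      refine sup_le hW ((span_singleton_le_iff_mem _ _).2 ?_)
      rw [LinearMap.mem_ker, ← hf v hv.1, h7, map_zero]
    rw [h0]
    exact zero_mem _
  | succ k ihk =>
    intro S
    induction S using Finset.induction_on with
    | empty =>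
      intro _ z hz hL
      refine ihk ((z.support.image (fun F => F.headD ⊤)).filter
        (fun L => lev N Λ W ρ L = k)) (fun L hL => (Finset.mem_filter.1 hL).2) z hz ?_
      intro L T hLT
      rcases hL L T hLT with h | h
      · rcases (Nat.lt_succ_iff_lt_or_eq.1 h) with h | h
        · exact Or.inl h
        · right
          rw [Finset.mem_filter, Finset.mem_image]
          exact ⟨⟨L :: T, hLT, rfl⟩, h⟩
      · exact absurd h (Finset.notMem_empty _)
    | insert L S hLS ihS =>
      intro hS z hz hL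
      have hlL : lev N Λ W ρ L = k + 1 := hS L (Finset.mem_insert_self _ _)
      obtain ⟨v, hv, rfl⟩ := lev_pos (by rw [hlL]; exact Nat.succ_ne_zero k)
      have hlv := lev_eq hN hf hW hv
      rw [hlL] at hlv
      have hmL : m + Module.finrank K (W ⊔ span K {v} : Submodule K V) =
          Module.finrank K V := by
        rw [sup_span_finrank W hv.2.1]
        omega
      obtain ⟨y, hy1, hy2, hy3, hy4⟩ := lift_apt h6 hN hs hf hW hm hv
        (by rw [← hlv]; exact Nat.succ_ne_zero k) (res (W ⊔ span K {v}) z)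
        (ih _ _ hmL (cyc_res hz))
      have hz' : IsCyc W (m + 1) (z + (-1 : ℤ) • y) := cyc_add hz (cyc_smul _ hy2)
      have h8 := ihS (fun L' hL' => hS L' (Finset.mem_insert_of_mem hL')) (z + (-1 : ℤ) • y) hz' ?_
      · have h9 : z = (z + (-1 : ℤ) • y) + y := by
          rw [neg_smul, one_smul, neg_add_cancel_right]
        rw [h9]
        exact add_mem h8 hy1
      · intro L' T hLT
        rcases eq_or_ne L' (W ⊔ span K {v}) with rfl | hne
        · exfalso
          rw [Finsupp.mem_support_iff, ← res_apply, map_add, map_zsmul, hy3, neg_smul, one_smul,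
            add_neg_cancel] at hLT
          exact hLT rfl
        · rcases Finset.mem_union.1 (Finsupp.support_add hLT) with h | h
          · rcases hL L' T h with h | h
            · exact Or.inl h
            · rcases Finset.mem_insert.1 h with h | h
              · exact absurd h hne
              · exact Or.inr h
          · rcases hy4 L' T (Finsupp.support_smul h) with h | h
            · exact absurd h hne
            · rw [← hlv] at h
              exact Or.inl h

omit [FiniteDimensional K V] in
theorem exists_form [IsPrincipalIdealRing R] {Λ : Submodule R V} (hfg : Λ.FG)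
    (W : Submodule K V) (hW : Module.finrank K W < Module.finrank K V) :
    ∃ (ρ : V → R) (f : V →ₗ[K] K), (∀ x ∈ Λ, algebraMap R K (ρ x) = f x) ∧ W ≤ f.ker ∧
      f ≠ 0 := by
  classical
  obtain ⟨y, hy⟩ : ∃ y, y ∉ W := by
    by_contra hcon
    push Not at hcon
    rw [show W = ⊤ from eq_top_iff.2 fun x _ => hcon x, finrank_top] at hW
    exact lt_irrefl _ hW
  obtain ⟨f0, hf0, hfW⟩ := Submodule.exists_le_ker_of_notMem hy
  let J : Submodule R K := Λ.map (f0.restrictScalars R)
  have hJ : J.FG := hfg.map _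
  obtain ⟨a, ha, haJ⟩ := FractionalIdeal.isFractional_of_fg (S := nonZeroDivisors R) hJ
  have ha0 : algebraMap R K a ≠ 0 := by
    rw [ne_eq, FaithfulSMul.algebraMap_eq_zero_iff]
    exact nonZeroDivisors.ne_zero ha
  have hex : ∀ x ∈ Λ, ∃ r, algebraMap R K r = (algebraMap R K a • f0) x := by
    intro x hx
    obtain ⟨r, hr⟩ := haJ (f0 x) ⟨x, hx, rfl⟩
    refine ⟨r, ?_⟩
    rw [hr, LinearMap.smul_apply, Algebra.smul_def]
    rfl
  refine ⟨fun x => if h : ∃ r, algebraMap R K r = (algebraMap R K a • f0) x then h.choose else 0,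
    algebraMap R K a • f0, ?_, ?_, ?_⟩
  · intro x hx
    change algebraMap R K (if h : ∃ r, algebraMap R K r = (algebraMap R K a • f0) x then h.choose
      else 0) = _
    rw [dif_pos (hex x hx)]
    exact (hex x hx).choose_spec
  · intro x hx
    rw [LinearMap.mem_ker, LinearMap.smul_apply, show f0 x = 0 from hfW hx, smul_zero]
  · intro h
    have := DFunLike.congr_fun h y
    rw [LinearMap.smul_apply, LinearMap.zero_apply, smul_eq_mul] at this
    exact (mul_ne_zero ha0 hf0) this

theorem done' (h6 : Task6) : Task3 := by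
  classical
  intro R K V _ _ _ _ _ _ _ _ _ _ _ N hN Λ hfg hs W m
  induction m generalizing W with
  | zero =>
    intro hm z hz
    rw [zero_add] at hm
    have hWt : W = ⊤ := Submodule.eq_top_of_finrank_eq hm
    subst hWt
    have hz' : z = z [] • apt (⊤ : Submodule K V) [] := by
      ext F
      rw [Finsupp.smul_apply, apt, List.length_nil, aptN]
      rcases eq_or_ne F [] with rfl | hF
      · rw [Finsupp.single_eq_same, smul_eq_mul, mul_one]
      · rw [Finsupp.single_eq_of_ne hF, smul_zero]
        by_contra h0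
        exact hF (List.length_eq_zero_iff.1 (hz.1 F (Finsupp.mem_support_iff.2 h0)).1)
    rw [hz']
    refine smul_mem _ _ (subset_span ⟨[], ⟨?_, ?_, ?_⟩, rfl⟩)
    · intro x hx
      exact absurd hx List.not_mem_nil
    · intro x _
      exact mem_sup_left (Submodule.mem_top : x ∈ (⊤ : Submodule K V))
    · rw [List.length_nil, zero_add, finrank_top]
  | succ m ih =>
    intro hm z hz
    obtain ⟨ρ, f, hf, hW, hf0⟩ := exists_form (R := R) hfg W (by omega)
    let k := z.support.sup (fun F => lev N Λ W ρ (F.headD ⊤))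
    refine codim_step h6 hN hfg hs (fun W z h1 h2 => ih W h1 z h2) W hm hf hW hf0 (k + 1) ∅
      (fun L hL => absurd hL (Finset.notMem_empty _)) z hz ?_
    intro L T hLT
    left
    have : lev N Λ W ρ ((L :: T).headD ⊤) ≤ k :=
      Finset.le_sup (f := fun F : List (Submodule K V) => lev N Λ W ρ (F.headD ⊤)) hLT
    exact Nat.lt_succ_of_le this

end Pool.Agent.W417.SN
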