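import Pool.Agent.W417.SN.Flag

/-! Apartments. -/

set_option autoImplicit false

namespace Pool.Agent.W417.SN

open Pool.Agent.W31.SN Submodule

variable {K V : Type} [Field K] [AddCommGroup V] [Module K V]

theorem getD_map (g : V → V) (l : List V) {i : ℕ} (hi : i < l.length) :
    (l.map g).getD i 0 = g (l.getD i 0) := by
  rw [List.getD_eq_getElem _ _ (by rwa [List.length_map]), List.getD_eq_getElem _ _ hi,
    List.getElem_map]

theorem aptN_map (g : V → V) : ∀ (n : ℕ) (W : Submodule K V)
    (_ : ∀ x, W ⊔ span K {g x} = W ⊔ span K {x}) (l : List V), l.length = n →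
    aptN n W (l.map g) = aptN n W l := by
  intro n
  induction n with
  | zero => intro W _ l _; rfl
  | succ n ih =>
    intro W hg l hl
    rw [aptN, aptN]
    refine Finset.sum_congr rfl fun i hi => ?_
    have hi' : i < l.length := by
      rw [hl]
      exact Finset.mem_range.1 hi
    rw [getD_map g l hi', hg, List.eraseIdx_map, ih]
    · intro x
      rw [sup_right_comm, hg x, sup_right_comm]
    · rw [List.length_eraseIdx_of_lt hi', hl]
      rfl

theorem apt_map (g : V → V) (W : Submodule K V)
    (hg : ∀ x, W ⊔ span K {g x} = W ⊔ span K {x}) (l : List V) :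
    apt W (l.map g) = apt W l := by
  rw [apt, apt, List.length_map]
  exact aptN_map g _ W hg l rfl

theorem apt_cons (W : Submodule K V) (v : V) (l : List V) :
    apt W (v :: l) = Finsupp.mapDomain (List.cons (W ⊔ span K {v})) (apt (W ⊔ span K {v}) l) +
      ∑ i ∈ Finset.range l.length, (-1 : ℤ) ^ (i + 1) •
        Finsupp.mapDomain (List.cons (W ⊔ span K {l.getD i 0}))
          (aptN l.length (W ⊔ span K {l.getD i 0}) (v :: l.eraseIdx i)) := by
  rw [apt, List.length_cons, aptN, Finset.sum_range_succ', add_comm]
  congr 1
  rw [pow_zero, one_smul]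
  rfl

/-- the residue of an apartment -/
theorem res_apt (W : Submodule K V) (v : V) (l : List V)
    (h : ∀ x ∈ l, W ⊔ span K {x} ≠ W ⊔ span K {v}) :
    res (W ⊔ span K {v}) (apt W (v :: l)) = apt (W ⊔ span K {v}) l := by
  rw [apt_cons, map_add, res_cons_self, map_sum, Finset.sum_eq_zero, add_zero]
  intro i hi
  have hi' : i < l.length := Finset.mem_range.1 hi
  rw [map_zsmul, res_cons_ne, smul_zero]
  apply h
  rw [List.getD_eq_getElem _ _ hi']
  exact List.getElem_mem hi'

/-- the heads of an apartment -/
theorem head_apt (W : Submodule K V) (l : List V) (L : Submodule K V)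
    (T : List (Submodule K V)) (h : L :: T ∈ (apt W l).support) :
    ∃ x ∈ l, L = W ⊔ span K {x} := by
  classical
  by_contra hcon
  push Not at hcon
  rw [Finsupp.mem_support_iff, ← res_apply] at h
  apply h
  have h0 : res L (apt W l) = 0 := by
    rw [apt]
    cases hl : l with
    | nil =>
      rw [List.length_nil, aptN, res_single_nil]
    | cons v l' =>
      rw [List.length_cons, aptN, map_sum, Finset.sum_eq_zero]
      intro i hi
      have hi' : i < (v :: l').length := by
        rw [List.length_cons]
        exact Finset.mem_range.1 hi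
      rw [map_zsmul, res_cons_ne, smul_zero]
      rw [← hl] at hi' ⊢
      refine (hcon _ ?_).symm
      rw [List.getD_eq_getElem _ _ hi']
      exact List.getElem_mem hi'
  rw [h0]
  rfl

end Pool.Agent.W417.SN
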