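import Pool.Agent.W417.SN.Geo

/-! Residues of cycles of flags. -/

set_option autoImplicit false

namespace Pool.Agent.W417.SN

open Pool.Agent.W31.SN Submodule

section list

variable {X : Type}

/-- residue -/
noncomputable def res (L : X) : (List X →₀ ℤ) →+ (List X →₀ ℤ) where
  toFun z := Finsupp.comapDomain (List.cons L) z List.cons_injective.injOn
  map_zero' := by
    ext T
    simp
  map_add' x y := by
    ext T
    simp

theorem res_apply (L : X) (z : List X →₀ ℤ) (T : List X) : res L z T = z (L :: T) := rfl

theorem res_cons_self (L : X) (u : List X →₀ ℤ) :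
    res L (Finsupp.mapDomain (List.cons L) u) = u := by
  ext T
  rw [res_apply]
  exact Finsupp.mapDomain_apply List.cons_injective u T

theorem res_cons_ne {L M : X} (h : M ≠ L) (u : List X →₀ ℤ) :
    res L (Finsupp.mapDomain (List.cons M) u) = 0 := by
  ext T
  rw [res_apply]
  refine Finsupp.mapDomain_of_notMem_range _ _ ?_
  rintro ⟨S, hS⟩
  exact h (List.cons_eq_cons.1 hS).1

theorem res_single_cons [DecidableEq X] (L M : X) (T : List X) (c : ℤ) :
    res L (Finsupp.single (M :: T) c) = if M = L then Finsupp.single T c else 0 := by
  have h : Finsupp.single (M :: T) c = Finsupp.mapDomain (List.cons M) (Finsupp.single T c) := by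
    rw [Finsupp.mapDomain_single]
  rw [h]
  split_ifs with hML
  · rw [hML, res_cons_self]
  · exact res_cons_ne hML _

theorem res_single_nil (L : X) (c : ℤ) : res L (Finsupp.single [] c) = 0 := by
  ext T
  rw [res_apply]
  simp

theorem res_erase (L : X) (i : ℕ) (z : List X →₀ ℤ) :
    Finsupp.mapDomain (fun F : List X => F.eraseIdx i) (res L z) =
      res L (Finsupp.mapDomain (fun F : List X => F.eraseIdx (i + 1)) z) := by
  classical
  induction z using Finsupp.induction_linear with
  | zero => rw [Finsupp.mapDomain_zero, map_zero, Finsupp.mapDomain_zero]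
  | add x y hx hy =>
    rw [Finsupp.mapDomain_add, map_add, map_add, Finsupp.mapDomain_add, hx, hy]
  | single F c =>
    rw [Finsupp.mapDomain_single]
    cases F with
    | nil =>
      rw [res_single_nil, Finsupp.mapDomain_zero, List.eraseIdx_nil, res_single_nil]
    | cons M T =>
      rw [List.eraseIdx_cons_succ, res_single_cons, res_single_cons]
      split_ifs with h
      · rw [Finsupp.mapDomain_single]
      · rw [Finsupp.mapDomain_zero]

theorem mapDomain_unique {α β : Type} (f : α → β) (z : α →₀ ℤ) (x : α)
    (h : ∀ x' ∈ z.support, f x' = f x → x' = x) : Finsupp.mapDomain f z (f x) = z x := by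
  classical
  rw [Finsupp.mapDomain, Finsupp.sum_apply, Finsupp.sum, Finset.sum_eq_single x]
  · rw [Finsupp.single_eq_same]
  · intro b hb hbx
    rw [Finsupp.single_apply, if_neg]
    exact fun hh => hbx (h b hb hh)
  · intro hx
    rw [Finsupp.notMem_support_iff.1 hx, Finsupp.single_zero, Finsupp.zero_apply]

end list

section geo

variable {K V : Type} [Field K] [AddCommGroup V] [Module K V]

theorem dim_chain [FiniteDimensional K V] : ∀ (F : List (Submodule K V)) (W : Submodule K V),
    List.IsChain (· < ·) (W :: F) → (W :: F).getLast (List.cons_ne_nil _ _) = ⊤ →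
    Module.finrank K W + F.length ≤ Module.finrank K V := by
  intro F
  induction F with
  | nil =>
    intro W _ _
    rw [List.length_nil, add_zero]
    exact Submodule.finrank_le W
  | cons L T ih =>
    intro W h1 h2
    rw [List.isChain_cons_cons] at h1
    have h3 := ih L h1.2 (by rwa [List.getLast_cons_cons] at h2)
    have h4 := Submodule.finrank_lt_finrank_of_lt h1.1
    rw [List.length_cons]
    omega

theorem head_dim [FiniteDimensional K V] {L W : Submodule K V} {T : List (Submodule K V)}
    (h1 : List.IsChain (· < ·) (W :: L :: T))
    (h2 : (W :: L :: T).getLast (List.cons_ne_nil _ _) = ⊤)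
    (h3 : T.length + 1 + Module.finrank K W = Module.finrank K V) :
    W ≤ L ∧ Module.finrank K L = Module.finrank K W + 1 := by
  rw [List.isChain_cons_cons] at h1
  have h4 := dim_chain T L h1.2 (by rwa [List.getLast_cons_cons] at h2)
  have h5 := Submodule.finrank_lt_finrank_of_lt h1.1
  exact ⟨h1.1.le, by omega⟩

theorem cyc_res {W L : Submodule K V} {m : ℕ} {z : List (Submodule K V) →₀ ℤ}
    (hz : IsCyc W (m + 1) z) : IsCyc L m (res L z) := by
  refine ⟨?_, ?_⟩
  · intro T hT
    have hT' : L :: T ∈ z.support := by
      rw [Finsupp.mem_support_iff] at hT ⊢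
      exact hT
    obtain ⟨h1, h2, h3⟩ := hz.1 _ hT'
    rw [List.length_cons] at h1
    refine ⟨by omega, ?_, ?_⟩
    · rw [List.isChain_cons_cons] at h2
      exact h2.2
    · rwa [List.getLast_cons_cons] at h3
  · intro i hi
    rw [res_erase, hz.2 (i + 1) (by omega), map_zero]

theorem cyc_add {W : Submodule K V} {m : ℕ} {z z' : List (Submodule K V) →₀ ℤ}
    (hz : IsCyc W m z) (hz' : IsCyc W m z') : IsCyc W m (z + z') := by
  classical
  refine ⟨?_, ?_⟩
  · intro F hF
    rcases Finset.mem_union.1 (Finsupp.support_add hF) with h | h
    · exact hz.1 F h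
    · exact hz'.1 F h
  · intro i hi
    rw [Finsupp.mapDomain_add, hz.2 i hi, hz'.2 i hi, add_zero]

theorem cyc_zero {W : Submodule K V} {m : ℕ} : IsCyc W m (0 : List (Submodule K V) →₀ ℤ) := by
  refine ⟨?_, ?_⟩
  · intro F hF
    rw [Finsupp.support_zero] at hF
    exact absurd hF (Finset.notMem_empty F)
  · intro i hi
    rw [Finsupp.mapDomain_zero]

theorem cyc_smul {W : Submodule K V} {m : ℕ} {z : List (Submodule K V) →₀ ℤ} (c : ℤ)
    (hz : IsCyc W m z) : IsCyc W m (c • z) := by
  refine ⟨?_, ?_⟩
  · intro F hF
    exact hz.1 F (Finsupp.support_smul hF)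
  · intro i hi
    rw [Finsupp.mapDomain_smul, hz.2 i hi, smul_zero]

/-- a cycle with all heads in a hyperplane is zero -/
theorem lemZ [FiniteDimensional K V] (H : Submodule K V)
    (hH : Module.finrank K H + 1 = Module.finrank K V) : ∀ (m : ℕ) (W : Submodule K V)
    (z : List (Submodule K V) →₀ ℤ), m + 1 + Module.finrank K W = Module.finrank K V →
    IsCyc W (m + 1) z → (∀ L T, L :: T ∈ z.support → L ≤ H) → z = 0 := by
  intro m
  induction m with
  | zero =>
    intro W z hm hz hL
    by_contra h0
    obtain ⟨F, hF⟩ := Finsupp.support_nonempty_iff.2 h0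
    obtain ⟨h1, h2, h3⟩ := hz.1 F hF
    match F, h1 with
    | [L], _ =>
      have h4 : L = ⊤ := h3
      have h5 := hL L [] hF
      rw [h4, top_le_iff] at h5
      rw [h5, finrank_top] at hH
      omega
  | succ m ih =>
    intro W z hm hz hL
    by_contra h0
    obtain ⟨F, hF⟩ := Finsupp.support_nonempty_iff.2 h0
    have hdim : ∀ L T, L :: T ∈ z.support → W ≤ L ∧
        Module.finrank K L = Module.finrank K W + 1 := by
      intro L T hLT
      obtain ⟨h1, h2, h3⟩ := hz.1 _ hLT
      rw [List.length_cons] at h1
      exact head_dim h2 h3 (by omega)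
    obtain ⟨h1, h2, h3⟩ := hz.1 F hF
    match F, h1 with
    | L :: T, h1 =>
      have hr := ih L (res L z) (by
        have := (hdim L T hF).2
        omega) (cyc_res hz) ?_
      · have h4 : res L z T = 0 := by
          rw [hr]
          rfl
        exact (Finsupp.mem_support_iff.1 hF) h4
      · intro M S hMS
        by_contra hMH
        have hF' : L :: M :: S ∈ z.support := by
          rw [Finsupp.mem_support_iff] at hMS ⊢
          exact hMS
        obtain ⟨k1, k2, k3⟩ := hz.1 _ hF'
        have hM : Module.finrank K M = Module.finrank K L + 1 := by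
          rw [List.length_cons, List.length_cons] at k1
          have k4 := (hdim L _ hF').2
          rw [List.isChain_cons_cons] at k2
          rw [List.getLast_cons_cons] at k3
          exact (head_dim k2.2 k3 (by omega)).2
        have htop : M ⊔ H = ⊤ := by
          have h6 : H < M ⊔ H := by
            refine lt_of_le_of_ne le_sup_right fun h => hMH ?_
            rw [h]
            exact le_sup_left
          have h7 := Submodule.finrank_lt_finrank_of_lt h6
          have h8 := Submodule.finrank_le (M ⊔ H)
          exact Submodule.eq_top_of_finrank_eq (by omega)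
        have hinf := Submodule.finrank_sup_add_finrank_inf_eq M H
        rw [htop, finrank_top] at hinf
        have huniq : ∀ L' : Submodule K V, L' :: M :: S ∈ z.support → L' = M ⊓ H := by
          intro L' hL'
          have h9 := (hdim L' _ hL').2
          have h10 := (hdim L _ hF').2
          have h11 : L' ≤ M := by
            have := (hz.1 _ hL').2.1
            rw [List.isChain_cons_cons, List.isChain_cons_cons] at this
            exact this.2.1.le
          refine Submodule.eq_of_le_of_finrank_le (le_inf h11 (hL L' _ hL')) ?_
          omega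
        have hz0 := hz.2 0 (by omega)
        have h12 := mapDomain_unique (fun F : List (Submodule K V) => F.eraseIdx 0) z
          (L :: M :: S) (by
            intro F' hF'' hFF
            match F', hF'', hFF with
            | L' :: T', hL', hT' =>
              have h13 : T' = M :: S := hT'
              rw [h13] at hL' ⊢
              rw [huniq L' hL', huniq L hF']
            | [], hL', hT' =>
              have h13 : ([] : List (Submodule K V)) = M :: S := hT'
              exact absurd h13 (List.cons_ne_nil M S).symm)
        rw [hz0] at h12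
        exact (Finsupp.mem_support_iff.1 hF') h12.symm

end geo

end Pool.Agent.W417.SN
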