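import Pool.Agent.W31.SN.Defs

/-! Primitive vectors and frames. -/

set_option autoImplicit false

namespace Pool.Agent.W417.SN

open Pool.Agent.W31.SN Submodule

section

variable {R K V : Type} [CommRing R] [Field K] [Algebra R K] [AddCommGroup V] [Module K V]
  [Module R V] [IsScalarTower R K V]

/-- primitive modulo `W` -/
def Prim (Λ : Submodule R V) (W : Submodule K V) (v : V) : Prop :=
  v ∈ Λ ∧ v ∉ W ∧ ∀ x ∈ Λ, x ∈ W ⊔ span K {v} → ∃ c : R, x - c • v ∈ W

theorem smul_algebraMap' (r : R) (v : V) : algebraMap R K r • v = r • v :=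
  algebraMap_smul K r v

theorem smul_mem' (W : Submodule K V) (r : R) {v : V} (hv : v ∈ W) : r • v ∈ W := by
  rw [← smul_algebraMap' (K := K)]
  exact W.smul_mem _ hv

theorem clear_denom [IsDomain R] [IsFractionRing R K] (Λ : Submodule R V)
    (hs : span K (Λ : Set V) = ⊤) (y : V) : ∃ r : R, r ≠ 0 ∧ r • y ∈ Λ := by
  have hy : y ∈ span K (Λ : Set V) := by
    rw [hs]
    trivial
  induction hy using Submodule.span_induction with
  | mem x hx => exact ⟨1, one_ne_zero, by rwa [one_smul]⟩
  | zero => exact ⟨1, one_ne_zero, by rw [smul_zero]; exact Λ.zero_mem⟩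
  | add x y _ _ hx hy =>
    obtain ⟨r, hr, hrx⟩ := hx
    obtain ⟨s, hs, hsy⟩ := hy
    refine ⟨r * s, mul_ne_zero hr hs, ?_⟩
    rw [smul_add]
    refine Λ.add_mem ?_ ?_
    · rw [mul_comm, mul_smul]
      exact Λ.smul_mem _ hrx
    · rw [mul_smul]
      exact Λ.smul_mem _ hsy
  | smul a x _ hx =>
    obtain ⟨r, hr, hrx⟩ := hx
    obtain ⟨p, q, hq, rfl⟩ := IsFractionRing.div_surjective (A := R) a
    refine ⟨q * r, mul_ne_zero (nonZeroDivisors.ne_zero hq) hr, ?_⟩
    have hq0 : algebraMap R K q ≠ 0 := by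
      rw [ne_eq, FaithfulSMul.algebraMap_eq_zero_iff]
      exact nonZeroDivisors.ne_zero hq
    have : (q * r) • (algebraMap R K p / algebraMap R K q) • x = p • r • x := by
      rw [← smul_algebraMap' (K := K) (q * r), ← smul_algebraMap' (K := K) p,
        ← smul_algebraMap' (K := K) r, smul_smul, smul_smul, map_mul]
      congr 1
      field_simp
    rw [this]
    exact Λ.smul_mem _ hrx

theorem sup_span_finrank [FiniteDimensional K V] (W : Submodule K V) {v : V} (hv : v ∉ W) :
    Module.finrank K (W ⊔ span K {v} : Submodule K V) = Module.finrank K W + 1 := by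
  have h0 : v ≠ 0 := by
    rintro rfl
    exact hv W.zero_mem
  have h1 : Module.finrank K (span K {v}) = 1 := finrank_span_singleton h0
  have h2 := Submodule.finrank_sup_add_finrank_inf_eq W (span K {v})
  have h3 : Module.finrank K (W ⊓ span K {v} : Submodule K V) = 0 := by
    rw [finrank_eq_zero, eq_bot_iff]
    intro x hx
    obtain ⟨c, rfl⟩ := mem_span_singleton.1 hx.2
    rcases eq_or_ne c 0 with rfl | hc
    · rw [zero_smul]
      exact zero_mem _
    · exfalso
      apply hv
      have := W.smul_mem c⁻¹ hx.1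
      rwa [smul_smul, inv_mul_cancel₀ hc, one_smul] at this
  omega

theorem sup_span_eq [FiniteDimensional K V] {W L : Submodule K V} (hWL : W ≤ L)
    (hd : Module.finrank K L = Module.finrank K W + 1) {v : V} (hv : v ∉ W) (hvL : v ∈ L) :
    L = W ⊔ span K {v} := by
  have h1 : W ⊔ span K {v} ≤ L := sup_le hWL ((span_singleton_le_iff_mem _ _).2 hvL)
  refine (Submodule.eq_of_le_of_finrank_le h1 ?_).symm
  rw [sup_span_finrank W hv, hd]

theorem exists_prim [IsDomain R] [IsPrincipalIdealRing R] [IsFractionRing R K]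
    [FiniteDimensional K V] (Λ : Submodule R V) (hfg : Λ.FG) (hs : span K (Λ : Set V) = ⊤)
    (W L : Submodule K V) (hWL : W ≤ L) (hd : Module.finrank K L = Module.finrank K W + 1) :
    ∃ v, Prim Λ W v ∧ L = W ⊔ span K {v} := by
  obtain ⟨y, hyL, hyW⟩ : ∃ y ∈ L, y ∉ W := by
    by_contra hcon
    push Not at hcon
    have : L = W := le_antisymm hcon hWL
    rw [this] at hd
    omega
  obtain ⟨r, hr, hrL⟩ := clear_denom (K := K) Λ hs y
  have hr0 : algebraMap R K r ≠ 0 := by
    rwa [ne_eq, FaithfulSMul.algebraMap_eq_zero_iff]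
  have hxW : r • y ∉ W := by
    intro h
    apply hyW
    have := W.smul_mem (algebraMap R K r)⁻¹ h
    rwa [← smul_algebraMap' (K := K) r y, smul_smul, inv_mul_cancel₀ hr0, one_smul] at this
  obtain ⟨f, hf0, hfW⟩ := Submodule.exists_le_ker_of_notMem hxW
  set x0 := r • y with hx0
  have hx0L : x0 ∈ L := smul_mem' L r hyL
  let J : Submodule R K := (Λ ⊓ L.restrictScalars R).map (f.restrictScalars R)
  have hJfg : J.FG := (Submodule.FG.of_le hfg inf_le_left).map _
  have hJ : J.IsPrincipal := FractionalIdeal.isPrincipal (R := R) (K := K)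
    ⟨J, FractionalIdeal.isFractional_of_fg hJfg⟩
  obtain ⟨j, hj⟩ := hJ.principal
  have hjJ : j ∈ J := by
    rw [hj]
    exact mem_span_singleton_self j
  obtain ⟨v, ⟨hvΛ, hvL⟩, hvj⟩ := hjJ
  have hvj' : f v = j := hvj
  have hj0 : j ≠ 0 := by
    rintro rfl
    have : f x0 ∈ J := ⟨x0, ⟨hrL, hx0L⟩, rfl⟩
    rw [hj, Submodule.span_zero_singleton] at this
    exact hf0 this
  have hvW : v ∉ W := fun h => hj0 (by rw [← hvj']; exact hfW h)
  have hLv := sup_span_eq hWL hd hvW hvL
  refine ⟨v, ⟨hvΛ, hvW, ?_⟩, hLv⟩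
  intro x hxΛ hxL
  rw [← hLv] at hxL
  have hfx : f x ∈ J := ⟨x, ⟨hxΛ, hxL⟩, rfl⟩
  rw [hj] at hfx
  obtain ⟨c, hc⟩ := mem_span_singleton.1 hfx
  refine ⟨c, ?_⟩
  have h1 : f (x - c • v) = 0 := by
    rw [map_sub, ← smul_algebraMap' (K := K), map_smul, hvj', ← hc, Algebra.smul_def, smul_eq_mul,
      sub_self]
  have h2 : x - c • v ∈ L := L.sub_mem hxL (smul_mem' L c hvL)
  rw [hLv] at h2
  obtain ⟨w, hw, u, hu, hwu⟩ := mem_sup.1 h2
  obtain ⟨a, rfl⟩ := mem_span_singleton.1 hu
  rw [← hwu, map_add, map_smul, hvj', show f w = 0 from hfW hw, zero_add, smul_eq_mul] at h1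
  have ha : a = 0 := (mul_eq_zero.1 h1).resolve_right hj0
  rw [← hwu, ha, zero_smul, add_zero]
  exact hw

/-- extending frames by primitive vectors -/
theorem frame_cons [FiniteDimensional K V] {Λ : Submodule R V} {W : Submodule K V} {v : V}
    {l : List V} (hv : Prim Λ W v) (hl : Frame Λ (W ⊔ span K {v}) l) : Frame Λ W (v :: l) := by
  obtain ⟨hvΛ, hvW, hvp⟩ := hv
  obtain ⟨h1, h2, h3⟩ := hl
  refine ⟨?_, ?_, ?_⟩
  · intro x hx
    rcases List.mem_cons.1 hx with rfl | hx
    · exact hvΛ
    · exact h1 x hx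
  · intro x hx
    obtain ⟨w, hw, u, hu, rfl⟩ := mem_sup.1 (h2 hx)
    have huΛ : u ∈ Λ := by
      have : span R {x | x ∈ l} ≤ Λ := span_le.2 fun y hy => h1 y hy
      exact this hu
    have hwΛ : w ∈ Λ := by
      have := Λ.sub_mem hx huΛ
      rwa [add_sub_cancel_right] at this
    obtain ⟨c, hc⟩ := hvp w hwΛ hw
    refine mem_sup.2 ⟨w - c • v, hc, c • v + u, ?_, by abel⟩
    refine add_mem (smul_mem _ _ (subset_span (List.mem_cons_self))) ?_
    exact span_mono (fun y hy => List.mem_cons_of_mem _ hy) hu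
  · rw [List.length_cons]
    rw [sup_span_finrank W hvW] at h3
    omega

theorem finrank_span_list (l : List V) [FiniteDimensional K V] :
    Module.finrank K (span K {x | x ∈ l}) ≤ l.length := by
  classical
  have h : {x | x ∈ l} = (l.toFinset : Set V) := by
    ext x
    simp
  rw [h]
  exact (finrank_span_finset_le_card (R := K) l.toFinset).trans (List.toFinset_card_le l)

/-- the head of a frame is primitive -/
theorem frame_prim [FiniteDimensional K V] {Λ : Submodule R V} (hs : span K (Λ : Set V) = ⊤)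
    {W : Submodule K V} {v : V} {l : List V} (hl : Frame Λ W (v :: l)) : Prim Λ W v := by
  obtain ⟨h1, h2, h3⟩ := hl
  rw [List.length_cons] at h3
  have htop : (W ⊔ span K {v}) ⊔ span K {x | x ∈ l} = ⊤ := by
    rw [eq_top_iff, ← hs, span_le]
    intro x hx
    obtain ⟨w, hw, u, hu, rfl⟩ := mem_sup.1 (h2 hx)
    have hle : span R {x | x ∈ v :: l} ≤
        ((W ⊔ span K {v}) ⊔ span K {x | x ∈ l}).restrictScalars R := by
      rw [span_le]
      intro y hy
      rcases List.mem_cons.1 hy with rfl | hy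
      · exact mem_sup_left (mem_sup_right (mem_span_singleton_self _))
      · exact mem_sup_right (subset_span hy)
    exact add_mem (mem_sup_left (mem_sup_left hw)) (hle hu)
  have hdim := Submodule.finrank_sup_add_finrank_inf_eq (W ⊔ span K {v}) (span K {x | x ∈ l})
  rw [htop, finrank_top] at hdim
  have hl' := finrank_span_list (K := K) l
  have hvW : v ∉ W := by
    intro hv
    rw [sup_eq_left.2 ((span_singleton_le_iff_mem _ _).2 hv)] at hdim
    omega
  rw [sup_span_finrank W hvW] at hdim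
  have hinf : Module.finrank K ((W ⊔ span K {v}) ⊓ span K {x | x ∈ l} : Submodule K V) = 0 := by
    omega
  rw [finrank_eq_zero] at hinf
  refine ⟨h1 v List.mem_cons_self, hvW, ?_⟩
  intro x hx hxL
  obtain ⟨w, hw, u, hu, rfl⟩ := mem_sup.1 (h2 hx)
  have hset : {x | x ∈ v :: l} = insert v {x | x ∈ l} := by
    ext y
    simp
  rw [hset, mem_span_insert] at hu
  obtain ⟨c, t, ht, rfl⟩ := hu
  have htK : t ∈ span K {x | x ∈ l} := by
    have : span R {x | x ∈ l} ≤ (span K {x | x ∈ l}).restrictScalars R :=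
      span_le.2 subset_span
    exact this ht
  have htL : t ∈ W ⊔ span K {v} := by
    have h5 : w + c • v ∈ W ⊔ span K {v} :=
      add_mem (mem_sup_left hw) (smul_mem' _ c (mem_sup_right (mem_span_singleton_self _)))
    have := sub_mem hxL h5
    rwa [show w + (c • v + t) - (w + c • v) = t by abel] at this
  have ht0 : t = 0 := by
    have : t ∈ (W ⊔ span K {v}) ⊓ span K {x | x ∈ l} := ⟨htL, htK⟩
    rw [hinf] at this
    exact this
  refine ⟨c, ?_⟩
  rw [ht0, add_zero, add_sub_cancel_right]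
  exact hw

theorem frame_perm {Λ : Submodule R V} {W : Submodule K V} {l l' : List V} (h : l.Perm l')
    (hl : Frame Λ W l) : Frame Λ W l' := by
  obtain ⟨h1, h2, h3⟩ := hl
  refine ⟨fun x hx => h1 x (h.mem_iff.2 hx), ?_, ?_⟩
  · have : {x | x ∈ l'} = {x | x ∈ l} := by
      ext x
      exact h.mem_iff.symm
    rw [this]
    exact h2
  · rw [← h.length_eq]
    exact h3

theorem frame_mem_prim [FiniteDimensional K V] {Λ : Submodule R V}
    (hs : span K (Λ : Set V) = ⊤) {W : Submodule K V} {v : V} {l : List V} (hl : Frame Λ W l)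
    (hv : v ∈ l) : Prim Λ W v := by
  classical
  exact frame_prim hs (frame_perm (List.perm_cons_erase hv) hl)

/-- two primitive vectors of the same line differ by a unit modulo `W` -/
theorem prim_unique [IsDomain R] [IsFractionRing R K] {Λ : Submodule R V} {W : Submodule K V}
    {v x : V} (hv : Prim Λ W v) (hx : Prim Λ W x) (h : W ⊔ span K {v} = W ⊔ span K {x}) :
    ∃ u : Rˣ, x - (u : R) • v ∈ W := by
  obtain ⟨c, hc⟩ := hv.2.2 x hx.1 (by
    rw [h]
    exact mem_sup_right (mem_span_singleton_self _))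
  obtain ⟨d, hd⟩ := hx.2.2 v hv.1 (by
    rw [← h]
    exact mem_sup_right (mem_span_singleton_self _))
  have h1 : (1 - c * d) • x ∈ W := by
    have h2 := W.add_mem hc (smul_mem' W c hd)
    rwa [show x - c • v + c • (v - d • x) = (1 - c * d) • x by
      rw [smul_sub, smul_smul, sub_smul, one_smul]
      abel] at h2
  have h3 : 1 - c * d = 0 := by
    by_contra h4
    have h5 : algebraMap R K (1 - c * d) ≠ 0 := by
      rwa [ne_eq, FaithfulSMul.algebraMap_eq_zero_iff]
    apply hx.2.1
    have := W.smul_mem (algebraMap R K (1 - c * d))⁻¹ h1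
    rwa [← smul_algebraMap' (K := K) (1 - c * d), smul_smul, inv_mul_cancel₀ h5, one_smul] at this
  have h6 : c * d = 1 := (sub_eq_zero.1 h3).symm
  exact ⟨Units.mkOfMulEqOne c d h6, hc⟩

end

end Pool.Agent.W417.SN
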